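import Pool.Agent.Lib.P7b.ThmA

/-!
# MP_7b5a71_lc: the complexity of a single face in terms of the segments with few intersections

`P7b.GP R` = general position, `P7b.faceEdges R x` = the edges of the arrangement of `R` on the boundary of the face of `x`,
`P7b.faceSize R x` = their number, `P7b.lightCount R w` = the number of segments of `R` which meet at least one and at most `w`
other segments of `R`.
-/

namespace Pool.Agent.Results.MP_7b5a71_lc.FaceBound

theorem result : ∀ (R : Finset (ℂ × ℂ)), P7b.GP R → ∀ x : ℂ, x ∉ P7b.un R → ∀ w : ℕ, 1 ≤ w →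
    (P7b.faceEdges R x).Finite ∧
    (P7b.faceSize R x : ℝ) ≤ 2240 * (R.card : ℝ) + 640 * ((R.card : ℝ) / w * Real.log R.card)
      + 320 * (1 + Real.log w) * P7b.lightCount R w :=
  fun _ hR _ hx w hw => P7b.thmA hR hx w hw

end Pool.Agent.Results.MP_7b5a71_lc.FaceBound
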