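import Pool.Agent.Lib.P7b.ThmLP

/-!
# MP_7b5a71_lc: the complexity of the face of a point in the arrangement of a random sample of segments

`P7b.Sg` = pairs of points of the plane `ℂ`, `P7b.LP S` = the segments of `S` are not points and any two of them share at most
one point, `P7b.un S` = their union, `P7b.faceSize R x` = the number of edges of the arrangement of `R` on the boundary of the
connected component of the complement of `un R` containing `x`.

For `n` segments, let `f k` be the average of `faceSize R x` over the `k`-element subsets `R`.  Then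
`∑ k ≤ n, f k / k ^ 2 ≤ 4800 (1 + log n)`.
-/

namespace Pool.Agent.Results.MP_7b5a71_lc.FaceSampling

theorem result : ∀ (S : Finset (ℂ × ℂ)), P7b.LP S → ∀ x : ℂ, x ∉ P7b.un S →
    ∑ k ∈ Finset.Icc 1 S.card, (1 / (k : ℝ) ^ 2) *
      ((∑ R ∈ S.powersetCard k, (P7b.faceSize R x : ℝ)) / (S.card.choose k : ℝ))
        ≤ 4800 * (1 + Real.log S.card) :=
  fun _ hS _ hx => P7b.thmB_lp hS hx

end Pool.Agent.Results.MP_7b5a71_lc.FaceSampling
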