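import Pool.Agent.Lib.SFA.Fin2
import Pool.Agent.Lib.P7m.Meas

/-!
# A single face of `n` segments in expected time `O(n log n)` on a real RAM

The plane is `ℂ`.  A segment is given by its two endpoints.  `Γ` is a list of `n = Γ.length`
closed segments in arbitrary position (touching, concurrent, collinear and overlapping segments
are allowed), `x` a point on no segment.  The machine (instructions, configurations, steps,
halting) is defined in `Pool/Agent/Lib/P7m/RAM.lean`, the halting time and the measure of an
infinite sequence of independent fair coins in `Pool/Agent/Lib/P7m/Coin.lean`.  The halting time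
is a measurable function of the random bits (`P7m.measurable_haltTime`), so that the integral in
the theorem is the expectation.
-/

namespace Pool.Agent.Results.MP_7b5a71_lc.SingleFaceNLogN

open P7m MeasureTheory ENNReal Complex

/-- A segment, given by its two endpoints. -/
abbrev Seg := ℂ × ℂ

/-- The union of the closed segments of `Γ`. -/
def union (Γ : List Seg) : Set ℂ := {z | ∃ s ∈ Γ, z ∈ segment ℝ s.1 s.2}

/-- The face of the arrangement of `Γ` which contains `x`. -/
def face (Γ : List Seg) (x : ℂ) : Set ℂ := connectedComponentIn (union Γ)ᶜ x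

/-- The cross product of two vectors of the plane (zero iff they are parallel). -/
def cross (a b : ℂ) : ℝ := a.re * b.im - a.im * b.re

/-- The vertices of the arrangement: the endpoints of the segments and the intersection points
of two non-parallel segments. -/
def vertices (Γ : List Seg) : Set ℂ :=
  {v | (∃ s ∈ Γ, v = s.1 ∨ v = s.2) ∨
    ∃ s ∈ Γ, ∃ t ∈ Γ, cross (s.2 - s.1) (t.2 - t.1) ≠ 0 ∧
      v ∈ segment ℝ s.1 s.2 ∧ v ∈ segment ℝ t.1 t.2}

/-- `(p, q)` is an edge of the arrangement, directed from `p` to `q`: `p` and `q` are different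
vertices, the segment between them is covered by the segments of `Γ` and its interior contains
no vertex. -/
structure IsEdge (Γ : List Seg) (p q : ℂ) : Prop where
  ne : p ≠ q
  left : p ∈ vertices Γ
  right : q ∈ vertices Γ
  sub : segment ℝ p q ⊆ union Γ
  free : Disjoint (openSegment ℝ p q) (vertices Γ)

/-- The point `p + t (q - p)` of the line `p q`, moved to the left (looking from `p` to `q`) by
`ε |q - p|`. -/
noncomputable def leftPoint (p q : ℂ) (t ε : ℝ) : ℂ :=
  p + (t : ℂ) * (q - p) + (ε : ℂ) * (I * (q - p))

/-- `(p, q)` is a directed edge with the face of `x` on its left (the points to the left of the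
midpoint of the edge and close to it belong to the face). -/
def IsSide (Γ : List Seg) (x p q : ℂ) : Prop :=
  IsEdge Γ p q ∧ ∃ ε₀ > 0, ∀ ε : ℝ, 0 < ε → ε < ε₀ → leftPoint p q (1 / 2) ε ∈ face Γ x

/-- `(v, q)` follows `(p, v)` on the walk along the boundary: inside every disc around `v` the
points to the left of `(p, v)` close to its end `v` and those to the left of `(v, q)` close to its
beginning `v` lie in one connected set which meets no segment. -/
def Follows (Γ : List Seg) (p v q : ℂ) : Prop :=
  ∀ r > 0, ∃ K : Set ℂ, IsPreconnected K ∧ K ⊆ Metric.ball v r ∧ (∀ z ∈ K, z ∉ union Γ) ∧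
    (∃ t < (1 : ℝ), ∀ t', t < t' → t' < 1 → ∃ ε₀ > 0, ∀ ε, 0 < ε → ε < ε₀ →
      leftPoint p v t' ε ∈ K) ∧
    (∃ t > (0 : ℝ), ∀ t', 0 < t' → t' < t → ∃ ε₀ > 0, ∀ ε, 0 < ε → ε < ε₀ →
      leftPoint v q t' ε ∈ K)

/-- The cyclically consecutive pairs of a list: `[a, b, c]` gives `(a, b), (b, c), (c, a)`. -/
def pairs (l : List ℂ) : List (ℂ × ℂ) := l.zip (l.rotate 1)

/-- The cyclically consecutive triples of a list. -/
def triples (l : List ℂ) : List (ℂ × ℂ × ℂ) := l.zip ((l.rotate 1).zip (l.rotate 2))

/-- `W` is the description of the boundary of the face of `x`: a list of cyclic lists of vertices.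
The cyclically consecutive pairs are exactly the directed edges with the face on their left, each
occurs once; consecutive edges follow each other on the boundary walk; the vertices of one cyclic
list lie in one connected component of the frontier of the face, different cyclic lists belong to
different components, and the edges cover the whole frontier.  So there is exactly one cyclic list
for each connected component of the boundary. -/
structure IsBoundary (Γ : List Seg) (x : ℂ) (W : List (List ℂ)) : Prop where
  ne : ∀ l ∈ W, l ≠ []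
  sides : ∀ p q, (p, q) ∈ W.flatMap pairs ↔ IsSide Γ x p q
  once : (W.flatMap pairs).Nodup
  turn : ∀ l ∈ W, ∀ a ∈ triples l, Follows Γ a.1 a.2.1 a.2.2
  same : ∀ l ∈ W, ∀ p ∈ l, ∀ q ∈ l, q ∈ connectedComponentIn (frontier (face Γ x)) p
  diff : W.Pairwise (fun l m => ∀ p ∈ l, ∀ q ∈ m,
    q ∉ connectedComponentIn (frontier (face Γ x)) p)
  cover : ∀ z ∈ frontier (face Γ x), ∃ a ∈ W.flatMap pairs, z ∈ segment ℝ a.1 a.2

/-- The input tape: the four coordinates of every segment, then the two coordinates of `x`
(then zeros).  The number `n` of segments is given in the integer register 0. -/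
noncomputable def tape (Γ : List Seg) (x : ℂ) (i : ℕ) : ℝ :=
  (Γ.flatMap (fun s => [s.1.re, s.1.im, s.2.re, s.2.im]) ++ [x.re, x.im]).getD i 0

/-- The output describing a list of lists of points: their number, then for each list its length
followed by the coordinates of its points. -/
def output (W : List (List ℂ)) : List (ℕ ⊕ ℝ) :=
  Sum.inl W.length :: W.flatMap (fun l =>
    Sum.inl l.length :: l.flatMap (fun z => [Sum.inr z.re, Sum.inr z.im]))

open Classical in
theorem U_eq (Γ : List Seg) : SFA.U Γ.toFinset = union Γ := by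
  ext z
  simp [SFA.U, SFA.carrier, union]

open Classical in
theorem Vert_eq (Γ : List Seg) : SFA.Vert Γ.toFinset = vertices Γ := by
  ext z
  simp [SFA.Vert, SFA.carrier, vertices, SFA.cross, cross]

open Classical in
theorem face_eq (Γ : List Seg) (x : ℂ) : SFA.face Γ.toFinset x = face Γ x := by
  unfold SFA.face face
  rw [U_eq]

open Classical in
theorem isEdge_iff (Γ : List Seg) (p q : ℂ) : SFA.IsDEdge Γ.toFinset p q ↔ IsEdge Γ p q := by
  constructor
  · rintro ⟨h1, h2, h3, h4, h5⟩
    rw [Vert_eq] at h2 h3 h5
    rw [U_eq] at h4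
    exact ⟨h1, h2, h3, h4, h5⟩
  · rintro ⟨h1, h2, h3, h4, h5⟩
    rw [← Vert_eq] at h2 h3 h5
    rw [← U_eq] at h4
    exact ⟨h1, h2, h3, h4, h5⟩

open Classical in
theorem isBoundary_of {Γ : List Seg} {x : ℂ} {W : List (List ℂ)}
    (h : SFA.IsBoundary Γ.toFinset x W) : IsBoundary Γ x W := by
  have hf := face_eq Γ x
  refine ⟨h.ne, fun p q => ?_, h.once, fun l hl a ha => ?_, ?_, ?_, ?_⟩
  · have h1 := h.sides p q
    unfold SFA.IsSide at h1
    rw [isEdge_iff, hf] at h1
    exact h1
  · have h1 := h.turn l hl a ha
    unfold SFA.Joined at h1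
    rw [U_eq] at h1
    exact h1
  · rw [← hf]; exact h.same
  · rw [← hf]; exact h.diff
  · rw [← hf]; exact h.cover

/-- There is a program `Q` of the real RAM and a constant `C` such that, for every list `Γ` of
segments in arbitrary position and every point `x` on no segment, the program halts for every
sequence `w` of random bits with the boundary of the face of `x` as its output, and, for
`n = Γ.length ≥ 2`, the expected number of steps is at most `C n log n`. -/
theorem result : ∃ (Q : List Instr) (C : ℝ), ∀ Γ : List Seg, (∀ s ∈ Γ, s.1 ≠ s.2) →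
    ∀ x : ℂ, (∀ s ∈ Γ, x ∉ segment ℝ s.1 s.2) →
    (∀ w : ℕ → Bool, ∃ (t : ℕ) (W : List (List ℂ)),
      Halted Q (run Q (tape Γ x) w t (Cfg.init Γ.length)) ∧
      (run Q (tape Γ x) w t (Cfg.init Γ.length)).out = output W ∧
      IsBoundary Γ x W) ∧
    (2 ≤ Γ.length → ∫⁻ w, (haltTime Q (tape Γ x) w Γ.length : ℝ≥0∞) ∂coins ≤
      ENNReal.ofReal (C * (Γ.length * Real.log Γ.length))) := by
  obtain ⟨Q, C, h⟩ := SFA.single_face
  refine ⟨Q, C, fun Γ hΓ x hx => ?_⟩
  have hx' : x ∉ SFA.U Γ.toFinset := by
    rw [U_eq]
    rintro ⟨s, hs, hz⟩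
    exact hx s hs hz
  obtain ⟨h1, h2⟩ := h Γ hΓ x hx'
  refine ⟨fun w => ?_, h2⟩
  obtain ⟨t, W, h3, h4, h5⟩ := h1 w
  exact ⟨t, W, h3, h4, isBoundary_of h5⟩

end Pool.Agent.Results.MP_7b5a71_lc.SingleFaceNLogN
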